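import Mathlib

namespace Pool.Agent.H53.Signed

/-- The set of colours `M_n`: `{0, ±1, ..., ±k}` if `n = 2k + 1`, and `{±1, ..., ±k}` if `n = 2k`. -/
def colorSet (n : ℕ) : Set ℤ := {a | |a| ≤ ((n / 2 : ℕ) : ℤ) ∧ (Even n → a ≠ 0)}

/-- `f` is an `n`-edge-coloring of the signed graph `(G, σ)`; here `f u v` is the value at the
incidence `u : uv`. -/
def IsEdgeColoring {V : Type*} (G : SimpleGraph V) (σ : G.edgeSet → ℤˣ) (n : ℕ)
    (f : V → V → ℤ) : Prop :=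
  (∀ u v, G.Adj u v → f u v ∈ colorSet n) ∧
  (∀ u v, ∀ h : G.Adj u v,
    f u v = -((σ ⟨s(u, v), G.mem_edgeSet.mpr h⟩ : ℤˣ) : ℤ) * f v u) ∧
  (∀ u v w, G.Adj u v → G.Adj u w → v ≠ w → f u v ≠ f u w)

/-- The chromatic index of a signed graph. -/
noncomputable def signedChromaticIndex {V : Type*} (G : SimpleGraph V) (σ : G.edgeSet → ℤˣ) : ℕ :=
  sInf {n : ℕ | 0 < n ∧ ∃ f : V → V → ℤ, IsEdgeColoring G σ n f}

end Pool.Agent.H53.Signed
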