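import Pool.Agent.H53.Signed.Core
import Pool.Agent.H53.Signed.Defs

namespace Pool.Agent.H53.Signed

open Finset

variable {r : ℕ} [NeZero r]

/-- product of the signs along a diagonal -/
def diag (σ : ZMod r → ZMod r → ℤˣ) (x : ZMod r) : ℤˣ := ∏ u, σ u (u + x)

lemma theta_eq (σ : ZMod r → ZMod r → ℤˣ) (ρ : ZMod r) (i : ℕ) :
    theta σ ρ i = diag σ (ρ + (2 * i : ℕ)) * diag σ (ρ + (2 * i + 1 : ℕ)) := by
  unfold theta B diag
  rw [prod_range_cast (fun w : ZMod r =>
    (σ w (w + ρ + (2 * i : ℕ)) * σ w (w + ρ + (2 * i + 1 : ℕ)))), Finset.prod_mul_distrib]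
  simp only [add_assoc]

lemma zeta_eq (σ : ZMod r → ZMod r → ℤˣ) (ρ : ZMod r) (k : ℕ) :
    zeta σ ρ k = ∏ t ∈ Finset.range (2 * k), diag σ (ρ + (t : ZMod r)) := by
  rw [prod_range_two_mul (fun t : ℕ => diag σ (ρ + (t : ZMod r)))]
  unfold zeta
  apply Finset.prod_congr rfl
  intro i _
  rw [theta_eq]

lemma prod_diag (σ : ZMod r → ZMod r → ℤˣ) : ∏ x, diag σ x = ∏ u, ∏ v, σ u v := by
  unfold diag
  rw [Finset.prod_comm]
  apply Finset.prod_congr rfl
  intro u _
  exact Equiv.prod_comp (Equiv.addLeft u) (fun v => σ u v)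

lemma prod_diag_shift (σ : ZMod r → ZMod r → ℤˣ) (ρ : ZMod r) :
    ∏ t ∈ Finset.range r, diag σ (ρ + (t : ZMod r)) = ∏ u, ∏ v, σ u v := by
  rw [prod_range_cast (fun x => diag σ (ρ + x)), ← prod_diag]
  exact Equiv.prod_comp (Equiv.addLeft ρ) (fun v => diag σ v)

lemma exists_rho (σ : ZMod r → ZMod r → ℤˣ) (h : Odd r ∨ ∏ u, ∏ v, σ u v = 1) :
    ∃ ρ, zeta σ ρ (r / 2) = 1 := by
  rcases Nat.even_or_odd r with he | ho
  · have h1 : ∏ u, ∏ v, σ u v = 1 := by
      rcases h with h | h
      · exact absurd he (Nat.not_even_iff_odd.mpr h)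
      · exact h
    refine ⟨0, ?_⟩
    rw [zeta_eq, Nat.two_mul_div_two_of_even he, prod_diag_shift, h1]
  · set P := ∏ u, ∏ v, σ u v with hP
    obtain ⟨x, hx⟩ : ∃ x, diag σ x = P := by
      by_contra hcon
      push Not at hcon
      have h2 : ∀ x, diag σ x = -P := by
        intro x
        have h3 := hcon x
        rcases Int.units_eq_one_or (diag σ x) with h4 | h4 <;>
        rcases Int.units_eq_one_or P with h5 | h5
        · rw [h4, h5] at h3; exact absurd rfl h3
        · rw [h4, h5]; decide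
        · rw [h4, h5]
        · rw [h4, h5] at h3; exact absurd rfl h3
      have h6 := prod_diag σ
      rw [Finset.prod_congr rfl (fun x _ => h2 x), Finset.prod_const, Finset.card_univ, ZMod.card,
        ← hP] at h6
      rcases Int.units_eq_one_or P with h5 | h5
      · rw [h5, ho.neg_one_pow] at h6
        exact absurd h6 (by decide)
      · rw [h5, neg_neg, one_pow] at h6
        exact absurd h6 (by decide)
    refine ⟨x + 1, ?_⟩
    obtain ⟨k, hk⟩ := ho
    have hk2 : r / 2 = k := by omega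
    rw [zeta_eq, hk2]
    have h7 := prod_diag_shift σ (x + 1)
    rw [← hP] at h7
    have hr : Finset.range r = Finset.range (2 * k + 1) := by rw [hk]
    rw [hr, Finset.prod_range_succ] at h7
    have h8 : x + 1 + ((2 * k : ℕ) : ZMod r) = x := by
      have : ((2 * k + 1 : ℕ) : ZMod r) = 0 := by rw [← hk]; exact ZMod.natCast_self r
      rw [add_assoc, add_comm (1 : ZMod r), ← Nat.cast_succ, Nat.succ_eq_add_one, this, add_zero]
    rw [h8, hx] at h7
    calc ∏ t ∈ Finset.range (2 * k), diag σ (x + 1 + (t : ZMod r))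
        = (∏ t ∈ Finset.range (2 * k), diag σ (x + 1 + (t : ZMod r))) * P * P := by
          rw [mul_assoc, units_mul_self, mul_one]
      _ = 1 := by rw [h7, units_mul_self]

lemma units_mul_nat_inj {a b : ℤˣ} {m n : ℕ} (h : (a : ℤ) * ((m : ℤ) + 1) = b * ((n : ℤ) + 1)) :
    a = b ∧ m = n := by
  rcases Int.units_eq_one_or a with ha | ha <;> rcases Int.units_eq_one_or b with hb | hb <;>
  · subst ha; subst hb
    simp only [Units.val_one, Units.val_neg, one_mul, neg_mul] at h
    first
      | exact ⟨rfl, by omega⟩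
      | exfalso; omega

lemma units_mul_nat_ne {a : ℤˣ} {m : ℕ} : (a : ℤ) * ((m : ℤ) + 1) ≠ 0 := by
  rcases Int.units_eq_one_or a with ha | ha
  · subst ha; simp only [Units.val_one, one_mul]; omega
  · subst ha; simp only [Units.val_neg, Units.val_one, neg_mul, one_mul]; omega

theorem exists_array (σ : ZMod r → ZMod r → ℤˣ) (h : Odd r ∨ ∏ u, ∏ v, σ u v = 1) :
    ∃ F : ZMod r → ZMod r → ℤ, (∀ u v, F u v ∈ colorSet r) ∧
      (∀ u v v', F u v = F u v' → v = v') ∧
      (∀ v u u', (σ u v : ℤ) * F u v = (σ u' v : ℤ) * F u' v → u = u') := by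
  obtain ⟨ρ, hρ⟩ := exists_rho σ h
  obtain ⟨κ, h1, h2, h3⟩ := core σ ρ (r / 2) hρ
  set k := r / 2 with hk
  let F : ZMod r → ZMod r → ℤ := fun u v =>
    if (v - u - ρ).val < 2 * k then
      (ss σ ρ u (v - u - ρ).val : ℤ) * ((κ (u, (v - u - ρ).val) : ℤ) + 1) else 0
  have hval : ∀ u v : ZMod r, v = u + ρ + ((v - u - ρ).val : ZMod r) := by
    intro u v
    rw [ZMod.natCast_zmod_val]; ring
  have hval' : ∀ u v : ZMod r, u = v - ρ - ((v - u - ρ).val : ZMod r) := by
    intro u v
    rw [ZMod.natCast_zmod_val]; ring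
  refine ⟨F, ?_, ?_, ?_⟩
  · intro u v
    simp only [F]
    unfold colorSet
    have hlt := ZMod.val_lt (v - u - ρ)
    split_ifs with hc
    · have h4 := h1 u _ hc
      refine ⟨?_, fun _ => units_mul_nat_ne⟩
      rw [abs_mul]
      have h5 : |((ss σ ρ u (v - u - ρ).val : ℤˣ) : ℤ)| = 1 := by
        rcases Int.units_eq_one_or (ss σ ρ u (v - u - ρ).val) with h6 | h6 <;> rw [h6] <;> simp
      rw [h5, one_mul, abs_of_nonneg (by positivity)]
      have h7 : κ (u, (v - u - ρ).val) + 1 ≤ r / 2 := h4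
      exact_mod_cast h7
    · refine ⟨by rw [abs_zero]; exact Int.natCast_nonneg _, fun he => ?_⟩
      exfalso
      have := Nat.two_mul_div_two_of_even he
      omega
  · intro u v v' hF
    simp only [F] at hF
    have hlt := ZMod.val_lt (v - u - ρ)
    have hlt' := ZMod.val_lt (v' - u - ρ)
    have key : (v - u - ρ).val = (v' - u - ρ).val := by
      split_ifs at hF with hc hc' hc'
      · obtain ⟨h4, h5⟩ := units_mul_nat_inj hF
        exact h2 u _ hc _ hc' h4 h5
      · exact absurd hF units_mul_nat_ne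
      · exact absurd hF.symm units_mul_nat_ne
      · omega
    rw [hval u v, hval u v', key]
  · intro v u u' hF
    simp only [F] at hF
    have hlt := ZMod.val_lt (v - u - ρ)
    have hlt' := ZMod.val_lt (v - u' - ρ)
    have hs : ∀ w : ZMod r, ∀ n : ℤ, (σ w v : ℤ) * ((ss σ ρ w (v - w - ρ).val : ℤ) * n)
        = (hh σ ρ w (v - w - ρ).val : ℤ) * n := by
      intro w n
      have h4 : ss σ ρ w (v - w - ρ).val = σ w v * hh σ ρ w (v - w - ρ).val := by
        unfold ss
        rw [← hval w v]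
      rw [h4, Units.val_mul, ← mul_assoc, ← mul_assoc, ← Units.val_mul, units_mul_self,
        Units.val_one, one_mul]
    have key : (v - u - ρ).val = (v - u' - ρ).val := by
      split_ifs at hF with hc hc' hc'
      · rw [hs, hs] at hF
        obtain ⟨h4, h5⟩ := units_mul_nat_inj hF
        apply h3 v _ hc _ hc'
        · rw [← hval' u v, ← hval' u' v]; exact h4
        · rw [← hval' u v, ← hval' u' v]; exact h5
      · rw [hs, mul_zero] at hF
        exact absurd hF units_mul_nat_ne
      · rw [hs, mul_zero] at hF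
        exact absurd hF.symm units_mul_nat_ne
      · omega
    rw [hval' u v, hval' u' v, key]

end Pool.Agent.H53.Signed
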