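import Pool.Agent.H53.Signed.Konig

namespace Pool.Agent.H53.Signed

open Finset

lemma sum_range_two_mul {M : Type*} [AddCommMonoid M] (f : ℕ → M) (k : ℕ) :
    ∑ t ∈ Finset.range (2 * k), f t = ∑ i ∈ Finset.range k, (f (2 * i) + f (2 * i + 1)) := by
  induction k with
  | zero => simp
  | succ k ih =>
    rw [show 2 * (k + 1) = 2 * k + 1 + 1 by ring, Finset.sum_range_succ, Finset.sum_range_succ, ih,
      Finset.sum_range_succ, add_assoc]

lemma prod_range_two_mul {M : Type*} [CommMonoid M] (f : ℕ → M) (k : ℕ) :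
    ∏ t ∈ Finset.range (2 * k), f t = ∏ i ∈ Finset.range k, (f (2 * i) * f (2 * i + 1)) := by
  induction k with
  | zero => simp
  | succ k ih =>
    rw [show 2 * (k + 1) = 2 * k + 1 + 1 by ring, Finset.prod_range_succ, Finset.prod_range_succ, ih,
      Finset.prod_range_succ, mul_assoc]

lemma count_eq (s : ℕ → ℤˣ) (k : ℕ) (h : ∑ t ∈ Finset.range (2 * k), (s t : ℤ) = 0) (a : ℤˣ) :
    ((Finset.range (2 * k)).filter (fun t => s t = a)).card = k := by
  set P := ((Finset.range (2 * k)).filter (fun t => s t = 1)).card with hP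
  set N := ((Finset.range (2 * k)).filter (fun t => s t = -1)).card with hN
  have h1 : P + N = 2 * k := by
    have h2 : (Finset.range (2 * k)).filter (fun t => s t = -1)
        = (Finset.range (2 * k)).filter (fun t => ¬ s t = 1) := by
      apply Finset.filter_congr
      intro t _
      rcases Int.units_eq_one_or (s t) with h | h <;> rw [h] <;> decide
    rw [hP, hN, h2, Finset.card_filter_add_card_filter_not, Finset.card_range]
  have h3 : ∑ t ∈ Finset.range (2 * k), (s t : ℤ) = (P : ℤ) - N := by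
    have h4 : ∀ t, (s t : ℤ) = (if s t = 1 then (1 : ℤ) else 0) - (if s t = -1 then (1 : ℤ) else 0) := by
      intro t
      rcases Int.units_eq_one_or (s t) with h | h <;> rw [h] <;> decide
    simp_rw [fun t => h4 t]
    rw [Finset.sum_sub_distrib, Finset.sum_boole, Finset.sum_boole]
  rcases Int.units_eq_one_or a with h | h
  · rw [h]; omega
  · rw [h]; omega

variable {r : ℕ} [NeZero r]

lemma prod_range_cast {M : Type*} [CommMonoid M] (g : ZMod r → M) :
    ∏ t ∈ Finset.range r, g (t : ZMod r) = ∏ x : ZMod r, g x := by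
  apply Finset.prod_nbij' (fun t : ℕ => (t : ZMod r)) (fun x : ZMod r => x.val)
  · intro t _; exact Finset.mem_univ _
  · intro x _; exact Finset.mem_range.mpr (ZMod.val_lt x)
  · intro t ht; exact ZMod.val_cast_of_lt (Finset.mem_range.mp ht)
  · intro x _; exact ZMod.natCast_zmod_val x
  · intro t _; rfl

variable (σ : ZMod r → ZMod r → ℤˣ) (ρ : ZMod r)

/-- partial products of class `i` -/
def B (i n : ℕ) : ℤˣ :=
  ∏ w ∈ Finset.range n, (σ (w : ZMod r) (w + ρ + (2 * i : ℕ)) * σ (w : ZMod r) (w + ρ + (2 * i + 1 : ℕ)))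

/-- total product over class `i` -/
def theta (i : ℕ) : ℤˣ := B σ ρ i r

/-- cumulative products of the classes -/
def zeta (i : ℕ) : ℤˣ := ∏ j ∈ Finset.range i, theta σ ρ j

/-- starting signs -/
def eta (i : ℕ) : ℤˣ := σ 0 (ρ + (2 * i : ℕ)) * zeta σ ρ i

/-- signs at the column side -/
def hh (u : ZMod r) (t : ℕ) : ℤˣ :=
  if t % 2 = 1 then eta σ ρ (t / 2) * B σ ρ (t / 2) (u.val + 1)
  else -(eta σ ρ (t / 2) * B σ ρ (t / 2) ((u - 1).val + 1))

/-- signs at the row side -/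
def ss (u : ZMod r) (t : ℕ) : ℤˣ := σ u (u + ρ + t) * hh σ ρ u t

omit [NeZero r] in
lemma hh_odd (u : ZMod r) (i : ℕ) : hh σ ρ u (2 * i + 1) = eta σ ρ i * B σ ρ i (u.val + 1) := by
  unfold hh
  rw [if_pos (by omega), show (2 * i + 1) / 2 = i by omega]

omit [NeZero r] in
lemma hh_even (u : ZMod r) (i : ℕ) : hh σ ρ u (2 * i) = -(eta σ ρ i * B σ ρ i ((u - 1).val + 1)) := by
  unfold hh
  rw [if_neg (by omega), show (2 * i) / 2 = i by omega]

lemma col_sum (v : ZMod r) (k : ℕ) :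
    ∑ t ∈ Finset.range (2 * k), ((hh σ ρ (v - ρ - t) t : ℤˣ) : ℤ) = 0 := by
  rw [sum_range_two_mul (fun t => ((hh σ ρ (v - ρ - t) t : ℤˣ) : ℤ))]
  apply Finset.sum_eq_zero
  intro i _
  rw [hh_odd, hh_even]
  have e : v - ρ - ((2 * i : ℕ) : ZMod r) - 1 = v - ρ - ((2 * i + 1 : ℕ) : ZMod r) := by
    push_cast; ring
  rw [e]
  push_cast
  ring

omit [NeZero r] in
lemma B_succ (i n : ℕ) : B σ ρ i (n + 1) = B σ ρ i n *
    (σ (n : ZMod r) (n + ρ + (2 * i : ℕ)) * σ (n : ZMod r) (n + ρ + (2 * i + 1 : ℕ))) := by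
  unfold B
  rw [Finset.prod_range_succ]

lemma units_mul_self (a : ℤˣ) : a * a = 1 := Int.units_mul_self a

lemma row_pair (u : ZMod r) (i : ℕ) :
    ((ss σ ρ u (2 * i) : ℤˣ) : ℤ) + ((ss σ ρ u (2 * i + 1) : ℤˣ) : ℤ)
      = (eta σ ρ i * σ u (u + ρ + (2 * i : ℕ)) : ℤˣ) *
        ((B σ ρ i u.val : ℤˣ) - (B σ ρ i ((u - 1).val + 1) : ℤˣ) : ℤ) := by
  unfold ss
  rw [hh_odd, hh_even, B_succ σ ρ i u.val, ZMod.natCast_zmod_val]
  have h1 : σ u (u + ρ + (2 * i + 1 : ℕ)) * (eta σ ρ i * (B σ ρ i u.val *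
      (σ u (u + ρ + (2 * i : ℕ)) * σ u (u + ρ + (2 * i + 1 : ℕ)))))
      = eta σ ρ i * σ u (u + ρ + (2 * i : ℕ)) * B σ ρ i u.val := by
    calc σ u (u + ρ + (2 * i + 1 : ℕ)) * (eta σ ρ i * (B σ ρ i u.val *
      (σ u (u + ρ + (2 * i : ℕ)) * σ u (u + ρ + (2 * i + 1 : ℕ)))))
        = eta σ ρ i * σ u (u + ρ + (2 * i : ℕ)) * B σ ρ i u.val *
          (σ u (u + ρ + (2 * i + 1 : ℕ)) * σ u (u + ρ + (2 * i + 1 : ℕ))) := by
          rw [mul_comm (σ u (u + ρ + (2 * i + 1 : ℕ)))]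
          ac_rfl
      _ = _ := by rw [units_mul_self, mul_one]
  rw [h1]
  push_cast
  ring

lemma row_sum_ne {u : ZMod r} (hu : u ≠ 0) (k : ℕ) :
    ∑ t ∈ Finset.range (2 * k), ((ss σ ρ u t : ℤˣ) : ℤ) = 0 := by
  rw [sum_range_two_mul (fun t => ((ss σ ρ u t : ℤˣ) : ℤ))]
  apply Finset.sum_eq_zero
  intro i _
  rw [row_pair]
  have h : (u - 1).val + 1 = u.val := by
    have h1 : u.val ≠ 0 := by rwa [Ne, ZMod.val_eq_zero]
    have h2 : u - 1 = ((u.val - 1 : ℕ) : ZMod r) := by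
      rw [Nat.cast_sub (by omega), ZMod.natCast_zmod_val]; simp
    rw [h2, ZMod.val_cast_of_lt (by have := ZMod.val_lt u; omega)]
    omega
  rw [h, sub_self, mul_zero]

omit [NeZero r] in
lemma zeta_succ (i : ℕ) : zeta σ ρ (i + 1) = zeta σ ρ i * theta σ ρ i := by
  unfold zeta
  rw [Finset.prod_range_succ]

lemma row_sum_zero (k : ℕ) (hk : zeta σ ρ k = 1) :
    ∑ t ∈ Finset.range (2 * k), ((ss σ ρ 0 t : ℤˣ) : ℤ) = 0 := by
  rw [sum_range_two_mul (fun t => ((ss σ ρ 0 t : ℤˣ) : ℤ))]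
  have h1 : ∀ i ∈ Finset.range k, ((ss σ ρ 0 (2 * i) : ℤˣ) : ℤ) + ((ss σ ρ 0 (2 * i + 1) : ℤˣ) : ℤ)
      = ((zeta σ ρ i : ℤˣ) : ℤ) - ((zeta σ ρ (i + 1) : ℤˣ) : ℤ) := by
    intro i _
    rw [row_pair]
    have h2 : ((0 : ZMod r) - 1).val + 1 = r := by
      have h3 : (0 : ZMod r) - 1 = ((r - 1 : ℕ) : ZMod r) := by
        rw [Nat.cast_sub (by have := NeZero.pos r; omega)]; simp
      rw [h3, ZMod.val_cast_of_lt (by have := NeZero.pos r; omega)]
      have := NeZero.pos r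
      omega
    rw [h2, ZMod.val_zero, zeta_succ]
    have h4 : B σ ρ i 0 = 1 := by unfold B; simp
    have h5 : eta σ ρ i * σ 0 (0 + ρ + (2 * i : ℕ)) = zeta σ ρ i := by
      unfold eta
      rw [zero_add, mul_comm, ← mul_assoc, units_mul_self, one_mul]
    rw [h4, h5]
    unfold theta
    push_cast
    ring
  rw [Finset.sum_congr rfl h1, Finset.sum_range_sub', hk]
  unfold zeta
  simp

/-- The main combinatorial statement on the part of the array formed by the `2k` diagonals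
`v - u = ρ + t`, `t < 2k`. -/
theorem core (k : ℕ) (hk : zeta σ ρ k = 1) :
    ∃ κ : ZMod r × ℕ → ℕ, (∀ u, ∀ t < 2 * k, κ (u, t) < k) ∧
      (∀ u, ∀ t < 2 * k, ∀ t' < 2 * k, ss σ ρ u t = ss σ ρ u t' → κ (u, t) = κ (u, t') → t = t') ∧
      (∀ v, ∀ t < 2 * k, ∀ t' < 2 * k, hh σ ρ (v - ρ - t) t = hh σ ρ (v - ρ - t') t' →
        κ (v - ρ - t, t) = κ (v - ρ - t', t') → t = t') := by
  obtain ⟨κ, h1, h2, h3⟩ := konig (ε := ZMod r × ℕ) (X := ZMod r × ℤˣ) (Y := ZMod r × ℤˣ)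
    (fun e => (e.1, ss σ ρ e.1 e.2)) (fun e => (e.1 + ρ + e.2, hh σ ρ e.1 e.2)) k
    (Finset.univ ×ˢ Finset.range (2 * k))
    (by
      rintro ⟨u, a⟩
      have hsum : ∑ t ∈ Finset.range (2 * k), ((ss σ ρ u t : ℤˣ) : ℤ) = 0 := by
        by_cases hu : u = 0
        · subst hu; exact row_sum_zero σ ρ k hk
        · exact row_sum_ne σ ρ hu k
      refine Eq.trans (Eq.symm ?_) (count_eq _ k hsum a)
      apply Finset.card_bij (fun (t : ℕ) _ => (u, t))
      · intro t ht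
        simp only [Finset.mem_filter, Finset.mem_product, Finset.mem_univ, true_and] at ht ⊢
        exact ⟨ht.1, by rw [ht.2]⟩
      · intro t _ t' _ h
        exact (Prod.mk.inj h).2
      · rintro ⟨u', t⟩ ht
        simp only [Finset.mem_filter, Finset.mem_product, Finset.mem_univ, true_and,
          Prod.mk.injEq] at ht
        obtain ⟨h1, h2, h3⟩ := ht
        subst h2
        exact ⟨t, Finset.mem_filter.mpr ⟨h1, h3⟩, rfl⟩)
    (by
      rintro ⟨v, a⟩
      refine Eq.trans (Eq.symm ?_) (count_eq _ k (col_sum σ ρ v k) a)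
      apply Finset.card_bij (fun (t : ℕ) _ => (v - ρ - (t : ZMod r), t))
      · intro t ht
        simp only [Finset.mem_filter, Finset.mem_product, Finset.mem_univ, true_and,
          Prod.mk.injEq] at ht ⊢
        exact ⟨ht.1, by ring, ht.2⟩
      · intro t _ t' _ h
        exact (Prod.mk.inj h).2
      · rintro ⟨u', t⟩ ht
        simp only [Finset.mem_filter, Finset.mem_product, Finset.mem_univ, true_and,
          Prod.mk.injEq] at ht
        obtain ⟨h1, h2, h3⟩ := ht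
        have e : u' = v - ρ - t := by rw [← h2]; ring
        subst e
        exact ⟨t, Finset.mem_filter.mpr ⟨h1, h3⟩, rfl⟩)
  refine ⟨κ, ?_, ?_, ?_⟩
  · intro u t ht
    exact h1 (u, t) (by simp [ht])
  · intro u t ht t' ht' hs hκ
    have := h2 (u, t) (by simp [ht]) (u, t') (by simp [ht']) (by simp only; rw [hs]) hκ
    exact (Prod.mk.inj this).2
  · intro v t ht t' ht' hs hκ
    have := h3 (v - ρ - t, t) (by simp [ht]) (v - ρ - t', t') (by simp [ht'])
      (by simp only [Prod.mk.injEq]; exact ⟨by ring, hs⟩) hκ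
    exact (Prod.mk.inj this).2

end Pool.Agent.H53.Signed
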