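import Mathlib

namespace Pool.Agent.H53.Signed

open Finset

variable {ε X Y : Type*} [DecidableEq ε] [Fintype X] [DecidableEq X] [Fintype Y] [DecidableEq Y]

/-- König's edge colouring theorem for regular bipartite multigraphs: the edges are the elements of
`S`, with end points given by `p` and `q`. -/
theorem konig (p : ε → X) (q : ε → Y) (k : ℕ) : ∀ S : Finset ε,
    (∀ x, (S.filter (fun e => p e = x)).card = k) →
    (∀ y, (S.filter (fun e => q e = y)).card = k) →
    ∃ κ : ε → ℕ, (∀ e ∈ S, κ e < k) ∧
      (∀ e ∈ S, ∀ e' ∈ S, p e = p e' → κ e = κ e' → e = e') ∧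
      (∀ e ∈ S, ∀ e' ∈ S, q e = q e' → κ e = κ e' → e = e') := by
  induction k with
  | zero =>
    intro S hp _
    have hS : ∀ e, e ∉ S := by
      intro e he
      have := hp (p e)
      rw [Finset.card_eq_zero, Finset.filter_eq_empty_iff] at this
      exact this he rfl
    exact ⟨fun _ => 0, fun e he => absurd he (hS e), fun e he => absurd he (hS e),
      fun e he => absurd he (hS e)⟩
  | succ k ih =>
    intro S hp hq
    have hcardp : ∀ A : Finset X, (S.filter (fun e => p e ∈ A)).card = (k + 1) * A.card := by
      intro A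
      rw [Finset.card_eq_sum_card_fiberwise (f := p) (t := A)]
      · have : ∀ x ∈ A, ((S.filter (fun e => p e ∈ A)).filter (fun e => p e = x)).card = k + 1 := by
          intro x hx
          rw [← hp x]
          congr 1
          ext e
          simp only [Finset.mem_filter]
          constructor
          · rintro ⟨⟨h1, _⟩, h3⟩; exact ⟨h1, h3⟩
          · rintro ⟨h1, h3⟩; exact ⟨⟨h1, h3 ▸ hx⟩, h3⟩
        rw [Finset.sum_congr rfl this, Finset.sum_const, smul_eq_mul, mul_comm]
      · intro e he
        exact (Finset.mem_filter.mp he).2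
    have hcardq : ∀ B : Finset Y, (S.filter (fun e => q e ∈ B)).card = (k + 1) * B.card := by
      intro B
      rw [Finset.card_eq_sum_card_fiberwise (f := q) (t := B)]
      · have : ∀ x ∈ B, ((S.filter (fun e => q e ∈ B)).filter (fun e => q e = x)).card = k + 1 := by
          intro x hx
          rw [← hq x]
          congr 1
          ext e
          simp only [Finset.mem_filter]
          constructor
          · rintro ⟨⟨h1, _⟩, h3⟩; exact ⟨h1, h3⟩
          · rintro ⟨h1, h3⟩; exact ⟨⟨h1, h3 ▸ hx⟩, h3⟩
        rw [Finset.sum_congr rfl this, Finset.sum_const, smul_eq_mul, mul_comm]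
      · intro e he
        exact (Finset.mem_filter.mp he).2
    -- the two sides have the same size
    have hXY : Fintype.card X = Fintype.card Y := by
      have h1 := hcardp Finset.univ
      have h2 := hcardq Finset.univ
      simp only [Finset.mem_univ, Finset.filter_true] at h1 h2
      rw [h1] at h2
      have := Nat.eq_of_mul_eq_mul_left (Nat.succ_pos k) h2
      simpa using this
    -- Hall
    let t : X → Finset Y := fun x => (S.filter (fun e => p e = x)).image q
    have hall : ∀ A : Finset X, A.card ≤ (A.biUnion t).card := by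
      intro A
      have h1 : (S.filter (fun e => p e ∈ A)) ⊆ (S.filter (fun e => q e ∈ A.biUnion t)) := by
        intro e he
        rw [Finset.mem_filter] at he ⊢
        refine ⟨he.1, ?_⟩
        rw [Finset.mem_biUnion]
        refine ⟨p e, he.2, ?_⟩
        exact Finset.mem_image.mpr ⟨e, Finset.mem_filter.mpr ⟨he.1, rfl⟩, rfl⟩
      have h2 := Finset.card_le_card h1
      rw [hcardp, hcardq] at h2
      exact Nat.le_of_mul_le_mul_left h2 (Nat.succ_pos k)
    obtain ⟨f, hf1, hf2⟩ := (Finset.all_card_le_biUnion_card_iff_exists_injective t).mp hall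
    have hbij : Function.Bijective f := (Fintype.bijective_iff_injective_and_card f).mpr ⟨hf1, hXY⟩
    have hex : ∀ x, ∃ e ∈ S, p e = x ∧ q e = f x := by
      intro x
      obtain ⟨e, he1, he2⟩ := Finset.mem_image.mp (hf2 x)
      rw [Finset.mem_filter] at he1
      exact ⟨e, he1.1, he1.2, he2⟩
    choose g hg1 hg2 hg3 using hex
    let M : Finset ε := Finset.univ.image g
    have hMS : M ⊆ S := by
      intro e he
      obtain ⟨x, _, rfl⟩ := Finset.mem_image.mp he
      exact hg1 x
    have hMp : ∀ x, (M.filter (fun e => p e = x)) = {g x} := by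
      intro x
      ext e
      rw [Finset.mem_filter, Finset.mem_singleton]
      constructor
      · rintro ⟨h1, h2⟩
        obtain ⟨x', _, rfl⟩ := Finset.mem_image.mp h1
        rw [hg2] at h2
        rw [h2]
      · rintro rfl
        exact ⟨Finset.mem_image_of_mem _ (Finset.mem_univ _), hg2 x⟩
    have hMq : ∀ y, ∃ x, (M.filter (fun e => q e = y)) = {g x} := by
      intro y
      obtain ⟨x, hx⟩ := hbij.2 y
      refine ⟨x, ?_⟩
      ext e
      rw [Finset.mem_filter, Finset.mem_singleton]
      constructor
      · rintro ⟨h1, h2⟩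
        obtain ⟨x', _, rfl⟩ := Finset.mem_image.mp h1
        rw [hg3, ← hx] at h2
        rw [hf1 h2]
      · rintro rfl
        exact ⟨Finset.mem_image_of_mem _ (Finset.mem_univ _), by rw [hg3, hx]⟩
    obtain ⟨κ, hκ1, hκ2, hκ3⟩ := ih (S \ M) (by
      intro x
      have h1 : (S \ M).filter (fun e => p e = x)
          = (S.filter (fun e => p e = x)) \ (M.filter (fun e => p e = x)) := by
        ext e; simp only [Finset.mem_filter, Finset.mem_sdiff]; tauto
      rw [h1, Finset.card_sdiff_of_subset (Finset.filter_subset_filter _ hMS), hp, hMp,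
        Finset.card_singleton]
      rfl) (by
      intro y
      have h1 : (S \ M).filter (fun e => q e = y)
          = (S.filter (fun e => q e = y)) \ (M.filter (fun e => q e = y)) := by
        ext e; simp only [Finset.mem_filter, Finset.mem_sdiff]; tauto
      obtain ⟨x, hx⟩ := hMq y
      rw [h1, Finset.card_sdiff_of_subset (Finset.filter_subset_filter _ hMS), hq, hx,
        Finset.card_singleton]
      rfl)
    classical
    have hMp' : ∀ e ∈ M, ∀ e' ∈ M, p e = p e' → e = e' := by
      intro e he e' he' h
      have h1 : e ∈ M.filter (fun e'' => p e'' = p e') := Finset.mem_filter.mpr ⟨he, h⟩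
      have h2 : e' ∈ M.filter (fun e'' => p e'' = p e') := Finset.mem_filter.mpr ⟨he', rfl⟩
      rw [hMp, Finset.mem_singleton] at h1 h2
      exact h1.trans h2.symm
    have hMq' : ∀ e ∈ M, ∀ e' ∈ M, q e = q e' → e = e' := by
      intro e he e' he' h
      have h1 : e ∈ M.filter (fun e'' => q e'' = q e') := Finset.mem_filter.mpr ⟨he, h⟩
      have h2 : e' ∈ M.filter (fun e'' => q e'' = q e') := Finset.mem_filter.mpr ⟨he', rfl⟩
      obtain ⟨x, hx⟩ := hMq (q e')
      rw [hx, Finset.mem_singleton] at h1 h2
      exact h1.trans h2.symm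
    refine ⟨fun e => if e ∈ M then k else κ e, ?_, ?_, ?_⟩
    · intro e he
      simp only
      split_ifs with h
      · omega
      · have := hκ1 e (Finset.mem_sdiff.mpr ⟨he, h⟩)
        omega
    · intro e he e' he' hpp hκκ
      simp only at hκκ
      split_ifs at hκκ with h h' h'
      · exact hMp' e h e' h' hpp
      · have := hκ1 e' (Finset.mem_sdiff.mpr ⟨he', h'⟩)
        omega
      · have := hκ1 e (Finset.mem_sdiff.mpr ⟨he, h⟩)
        omega
      · exact hκ2 e (Finset.mem_sdiff.mpr ⟨he, h⟩) e' (Finset.mem_sdiff.mpr ⟨he', h'⟩) hpp hκκ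
    · intro e he e' he' hpp hκκ
      simp only at hκκ
      split_ifs at hκκ with h h' h'
      · exact hMq' e h e' h' hpp
      · have := hκ1 e' (Finset.mem_sdiff.mpr ⟨he', h'⟩)
        omega
      · have := hκ1 e (Finset.mem_sdiff.mpr ⟨he, h⟩)
        omega
      · exact hκ3 e (Finset.mem_sdiff.mpr ⟨he, h⟩) e' (Finset.mem_sdiff.mpr ⟨he', h'⟩) hpp hκκ

end Pool.Agent.H53.Signed
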