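import Pool.Agent.H53.Signed.Array

namespace Pool.Agent.H53.Signed

open Finset

lemma prod_eq_neg_one_pow {ι : Type*} [Fintype ι] (s : ι → ℤˣ) :
    ∏ i, s i = (-1) ^ (Finset.univ.filter (fun i => s i = -1)).card := by
  classical
  have h : ∀ i, s i = if s i = -1 then -1 else 1 := by
    intro i
    rcases Int.units_eq_one_or (s i) with h | h <;> rw [h] <;> decide
  calc ∏ i, s i = ∏ i, (if s i = -1 then (-1 : ℤˣ) else 1) :=
        Finset.prod_congr rfl (fun i _ => h i)
    _ = _ := by rw [Finset.prod_ite, Finset.prod_const, Finset.prod_const_one, mul_one]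

lemma le_of_coloring {r n : ℕ} (g : Fin r → ℤ) (hg : Function.Injective g)
    (hmem : ∀ v, g v ∈ colorSet n) : r ≤ n := by
  classical
  have hcard : (Finset.univ.image g).card = r := by
    rw [Finset.card_image_of_injective _ hg, Finset.card_univ, Fintype.card_fin]
  rcases Nat.even_or_odd n with he | ho
  · have hsub : Finset.univ.image g ⊆
        (Finset.Icc (-((n / 2 : ℕ) : ℤ)) ((n / 2 : ℕ) : ℤ)).erase 0 := by
      intro a ha
      obtain ⟨v, _, rfl⟩ := Finset.mem_image.mp ha
      obtain ⟨h1, h2⟩ := hmem v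
      rw [Finset.mem_erase, Finset.mem_Icc]
      exact ⟨h2 he, abs_le.mp h1⟩
    have h1 := Finset.card_le_card hsub
    rw [Finset.card_erase_of_mem (by rw [Finset.mem_Icc]; omega), Int.card_Icc, hcard] at h1
    have := Nat.two_mul_div_two_of_even he
    omega
  · have hsub : Finset.univ.image g ⊆
        (Finset.Icc (-((n / 2 : ℕ) : ℤ)) ((n / 2 : ℕ) : ℤ)) := by
      intro a ha
      obtain ⟨v, _, rfl⟩ := Finset.mem_image.mp ha
      obtain ⟨h1, h2⟩ := hmem v
      rw [Finset.mem_Icc]
      exact abs_le.mp h1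
    have h1 := Finset.card_le_card hsub
    rw [Int.card_Icc, hcard] at h1
    obtain ⟨k, hk⟩ := ho
    omega

/-- For every `r ≥ 1` and every signature on `K_{r,r}`, if `r` is odd, or `r` is even and the
number of negative edges is even, then the signed chromatic index is `r`. -/
theorem main (r : ℕ) (hr : 0 < r)
    (σ : (completeBipartiteGraph (Fin r) (Fin r)).edgeSet → ℤˣ)
    (h : Odd r ∨ (Even r ∧ Even ({e | σ e = -1} : Set _).ncard)) :
    signedChromaticIndex (completeBipartiteGraph (Fin r) (Fin r)) σ = r := by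
  classical
  have : NeZero r := ⟨hr.ne'⟩
  -- edges as pairs
  have hadj : ∀ u v : Fin r,
      (completeBipartiteGraph (Fin r) (Fin r)).Adj (Sum.inl u) (Sum.inr v) := by
    intro u v; simp [completeBipartiteGraph]
  let E : Fin r × Fin r → (completeBipartiteGraph (Fin r) (Fin r)).edgeSet := fun p =>
    ⟨s(Sum.inl p.1, Sum.inr p.2), (completeBipartiteGraph (Fin r) (Fin r)).mem_edgeSet.mpr
      (hadj p.1 p.2)⟩
  have hEinj : Function.Injective E := by
    rintro ⟨u, v⟩ ⟨u', v'⟩ hE
    simp only [E, Subtype.mk.injEq, Sym2.eq_iff] at hE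
    rcases hE with ⟨h1, h2⟩ | ⟨h1, h2⟩
    · exact Prod.ext (Sum.inl.inj h1) (Sum.inr.inj h2)
    · exact absurd h1 (by simp)
  have hEsurj : Function.Surjective E := by
    rintro ⟨e, he⟩
    induction e using Sym2.ind with
    | _ a b =>
      rw [SimpleGraph.mem_edgeSet] at he
      rcases a with a | a <;> rcases b with b | b
      · simp [completeBipartiteGraph] at he
      · exact ⟨(a, b), rfl⟩
      · exact ⟨(b, a), by simp only [E, Subtype.mk.injEq]; exact Sym2.eq_swap⟩
      · simp [completeBipartiteGraph] at he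
  let e : ZMod r ≃ Fin r := Fintype.equivOfCardEq (by rw [ZMod.card, Fintype.card_fin])
  let σ' : ZMod r → ZMod r → ℤˣ := fun u v => σ (E (e u, e v))
  have hσ' : Odd r ∨ ∏ u, ∏ v, σ' u v = 1 := by
    rcases h with h | ⟨_, h2⟩
    · exact Or.inl h
    · right
      have h3 : ∏ u, ∏ v, σ' u v = ∏ p : Fin r × Fin r, σ (E p) := by
        rw [Fintype.prod_prod_type]
        rw [← Equiv.prod_comp e (fun u => ∏ v, σ (E (u, v)))]
        apply Finset.prod_congr rfl
        intro u _
        exact Equiv.prod_comp e (fun v => σ (E (e u, v)))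
      rw [h3, prod_eq_neg_one_pow]
      have h4 : ({e | σ e = -1} : Set _).ncard
          = (Finset.univ.filter (fun p : Fin r × Fin r => σ (E p) = -1)).card := by
        have h5 : ({e | σ e = -1} : Set _)
            = E '' ((Finset.univ.filter (fun p : Fin r × Fin r => σ (E p) = -1) : Finset _) : Set _) := by
          ext x
          constructor
          · intro hx
            obtain ⟨p, rfl⟩ := hEsurj x
            exact ⟨p, by simpa using hx, rfl⟩
          · rintro ⟨p, hp, rfl⟩
            simpa using hp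
        rw [h5, Set.ncard_image_of_injective _ hEinj, Set.ncard_coe_finset]
      rw [h4] at h2
      exact h2.neg_one_pow
  obtain ⟨F, hF1, hF2, hF3⟩ := exists_array σ' hσ'
  -- the colouring
  let f : Fin r ⊕ Fin r → Fin r ⊕ Fin r → ℤ := fun x y =>
    match x, y with
    | Sum.inl u, Sum.inr v => F (e.symm u) (e.symm v)
    | Sum.inr v, Sum.inl u => -((σ (E (u, v)) : ℤˣ) : ℤ) * F (e.symm u) (e.symm v)
    | _, _ => 0
  have hσ's : ∀ u v : Fin r, σ' (e.symm u) (e.symm v) = σ (E (u, v)) := by
    intro u v; simp only [σ', Equiv.apply_symm_apply]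
  have hunit : ∀ a : ℤˣ, a = 1 ∨ a = -1 := Int.units_eq_one_or
  have hneg : ∀ {n : ℕ} {a : ℤ} (b : ℤˣ), a ∈ colorSet n → -((b : ℤˣ) : ℤ) * a ∈ colorSet n := by
    intro n a b ha
    obtain ⟨h1, h2⟩ := ha
    have habs : |-((b : ℤˣ) : ℤ) * a| = |a| := by
      rcases hunit b with hb | hb <;> rw [hb] <;> simp
    refine ⟨by rw [habs]; exact h1, fun he h0 => h2 he ?_⟩
    have : |a| = 0 := by rw [← habs, h0, abs_zero]
    exact abs_eq_zero.mp this
  have hcol : IsEdgeColoring (completeBipartiteGraph (Fin r) (Fin r)) σ r f := by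
    refine ⟨?_, ?_, ?_⟩
    · intro x y hxy
      rcases x with u | v <;> rcases y with u' | v'
      · simp [completeBipartiteGraph] at hxy
      · exact hF1 _ _
      · exact hneg _ (hF1 _ _)
      · simp [completeBipartiteGraph] at hxy
    · intro x y hxy
      rcases x with u | v <;> rcases y with u' | v'
      · simp [completeBipartiteGraph] at hxy
      · change F (e.symm u) (e.symm v') = -((σ (E (u, v')) : ℤˣ) : ℤ) *
          (-((σ (E (u, v')) : ℤˣ) : ℤ) * F (e.symm u) (e.symm v'))
        rcases hunit (σ (E (u, v'))) with hb | hb <;> rw [hb] <;> simp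
      · have hE : (⟨s(Sum.inr v, Sum.inl u'), (completeBipartiteGraph (Fin r) (Fin r)).mem_edgeSet.mpr hxy⟩ :
            (completeBipartiteGraph (Fin r) (Fin r)).edgeSet) = E (u', v) := by
          simp only [E, Subtype.mk.injEq]; exact Sym2.eq_swap
        rw [hE]
      · simp [completeBipartiteGraph] at hxy
    · intro x y z hxy hxz hne heq
      rcases x with u | v <;> rcases y with u' | v' <;> rcases z with u'' | v''
      · simp [completeBipartiteGraph] at hxy
      · simp [completeBipartiteGraph] at hxy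
      · simp [completeBipartiteGraph] at hxz
      · have h1 := hF2 _ _ _ heq
        exact hne (by rw [e.symm.injective h1])
      · change -((σ (E (u', v)) : ℤˣ) : ℤ) * F (e.symm u') (e.symm v)
          = -((σ (E (u'', v)) : ℤˣ) : ℤ) * F (e.symm u'') (e.symm v) at heq
        rw [neg_mul, neg_mul, neg_inj, ← hσ's, ← hσ's] at heq
        have h1 := hF3 _ _ _ heq
        exact hne (by rw [e.symm.injective h1])
      · simp [completeBipartiteGraph] at hxz
      · simp [completeBipartiteGraph] at hxy
      · simp [completeBipartiteGraph] at hxz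
  have hleast : IsLeast {n : ℕ | 0 < n ∧ ∃ f : Fin r ⊕ Fin r → Fin r ⊕ Fin r → ℤ,
      IsEdgeColoring (completeBipartiteGraph (Fin r) (Fin r)) σ n f} r := by
    refine ⟨⟨hr, f, hcol⟩, ?_⟩
    rintro n ⟨_, g, hg1, _, hg3⟩
    apply le_of_coloring (fun v => g (Sum.inl ⟨0, hr⟩) (Sum.inr v))
    · intro v v' hvv
      by_contra hne
      exact hg3 _ _ _ (hadj _ v) (hadj _ v') (fun hc => hne (Sum.inr.inj hc)) hvv
    · intro v
      exact hg1 _ _ (hadj _ v)
  exact hleast.csInf_eq

end Pool.Agent.H53.Signed
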